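import Pool.Agent.Helper93.N9.Gap1
import Pool.Agent.Helper27.N9.E0v
import Pool.Agent.Helper30.N9.Cx6

/-! MP_9b91d1_co: rows CH and QR (helper33). -/

open scoped RealInnerProductSpace Topology

namespace Pool.Agent.Helper30.N9

open PlaneGraph

namespace H33

theorem crs_neg_swap (x a : E3) : crs x (-a) = crs a x := by
  ext i
  fin_cases i <;> simp [crs] <;> ring

theorem comb_of_crs {x a z : E3} (hx : ‖x‖ = 1) (ha : ‖a‖ = 1) (h1 : x ≠ a) (h2 : x ≠ -a)
    {c : ℝ} (hc : 0 < c) (h : crs x z = c • crs x a) : ∃ γ : ℝ, z = γ • x + c • a := by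
  have hdet : det3 x a z = 0 := by
    have h3 : ⟪crs x z, z⟫ = 0 := by
      rw [crs_inner]; simp only [det3]; ring
    rw [h, real_inner_smul_left, crs_inner] at h3
    rcases mul_eq_zero.mp h3 with h' | h'
    · exact absurd h' hc.ne'
    · exact h'
  obtain ⟨γ, δ, hab⟩ : ∃ γ δ : ℝ, z = γ • x + δ • a := ⟨_, _, span_det hx ha h1 h2 hdet⟩
  refine ⟨γ, ?_⟩
  have h4 : crs x z = δ • crs x a := by
    rw [hab]
    ext i
    fin_cases i <;> simp [crs] <;> ring
  have hpos := crs_pos hx ha h1 h2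
  have h5 : δ * ⟪crs x a, crs x a⟫ = c * ⟪crs x a, crs x a⟫ := by
    rw [← real_inner_smul_left, ← real_inner_smul_left, ← h4, ← h]
  rw [mul_right_cancel₀ hpos.ne' h5] at hab
  exact hab

section
variable {V : Type} [Fintype V] [DecidableEq V] {M : PlaneGraph V} {L : Type} {p q : V → E3}
  {a : E3} {l : M.Face → L} {s t : V}

theorem fan_flip (F : M.Fan p a l s t) : M.Fan p (-a) l t s where
  ua := by rw [norm_neg]; exact F.ua
  ps := F.pt
  pt := by rw [neg_neg]; exact F.ps
  mer := by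
    intro d hd
    have := F.mer d hd
    simp only [det3, PiLp.neg_apply] at this ⊢
    linear_combination -this
  cvx := F.cvx
  up := by
    intro d hd h1 h2
    obtain ⟨e, he, hf, c, hc, h⟩ := F.dn d hd h2 h1
    exact ⟨e, he, hf, c, hc, by rw [h, crs_neg_swap]⟩
  dn := by
    intro d hd h1 h2
    obtain ⟨e, he, hf, c, hc, h⟩ := F.up d hd h2 h1
    refine ⟨e, he, hf, c, hc, ?_⟩
    have h3 := crs_neg_swap (p e.fst) (-a)
    rw [neg_neg] at h3
    rw [h, h3]
  ex := F.ex

theorem onE_fst {d : M.G.Dart} (h : M.E0 l d) : M.OnE l d.fst := ⟨d, rfl, h⟩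

theorem onE_snd {d : M.G.Dart} (h : M.E0 l d) : M.OnE l d.snd := ⟨d.symm, rfl, H27.E0_symm h⟩

theorem ne_a (hp : M.InC p) (F : M.Fan p a l s t) {v : V} (h1 : v ≠ s) (h2 : v ≠ t) :
    p v ≠ a ∧ p v ≠ -a :=
  ⟨fun h => h1 (hp.inj (by rw [h, F.ps])), fun h => h2 (hp.inj (by rw [h, F.pt]))⟩

/-- the next vertex on the way up -/
theorem up_step (hp : M.InC p) (F : M.Fan p a l s t) (hs : ∃ d : M.G.Dart, d.fst = s) {v : V}
    (hv : M.OnE l v) (h1 : v ≠ s) (h2 : v ≠ t) :
    ∃ e, M.E0 l e ∧ e.fst = v ∧ p e.snd ∈ arc (p v) a := by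
  obtain ⟨d, hd, hE⟩ := hv
  obtain ⟨e, he, hf, c, hc, h⟩ := F.up d hE (by rwa [hd]) (by rwa [hd])
  rw [hd] at hf
  obtain ⟨n1, n2⟩ := ne_a hp F h1 h2
  refine ⟨e, he, hf, ?_⟩
  rw [hf] at h
  obtain ⟨γ, hγ⟩ := comb_of_crs (hp.unit v) F.ua n1 n2 hc h
  by_cases hg : 0 ≤ γ
  · exact ⟨hp.unit _, γ, c, hg, hc.le, hγ⟩
  · push Not at hg
    exfalso
    have hmem : a ∈ arc (p e.fst) (p e.snd) := by
      refine ⟨F.ua, -γ * c⁻¹, c⁻¹, ?_, ?_, ?_⟩
      · exact mul_nonneg (by linarith) (inv_pos.mpr hc).le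
      · exact (inv_pos.mpr hc).le
      · rw [hf, hγ, smul_add, smul_smul, smul_smul, inv_mul_cancel₀ hc.ne', one_smul, ← add_assoc,
          ← add_smul]
        have : -γ * c⁻¹ + c⁻¹ * γ = 0 := by ring
        rw [this, zero_smul, zero_add]
    have hse : s ∉ e.edge := by
      intro h'
      rcases PlaneGraph.mem_edge h' with h'' | h''
      · exact h1 (by rw [h'', hf])
      · have h3 : a = γ • p v + c • a := by
          rw [← hγ, ← h'', F.ps]
        have h4 : crs (p v) a = c • crs (p v) a := by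
          conv_lhs => rw [h3]
          ext i
          fin_cases i <;> simp [crs] <;> ring
        have hpos := crs_pos (hp.unit v) F.ua n1 n2
        have h5 : (1 - c) * ⟪crs (p v) a, crs (p v) a⟫ = 0 := by
          have h6 : ⟪crs (p v) a, crs (p v) a⟫ = c * ⟪crs (p v) a, crs (p v) a⟫ := by
            rw [← real_inner_smul_left, ← h4]
          linear_combination h6
        rcases mul_eq_zero.mp h5 with h6 | h6
        · have hc1 : c = 1 := by linarith
          rw [hc1, one_smul] at h3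
          have h7 : γ • p v = 0 := by
            have := congrArg (fun z => z - a) h3
            simpa using this.symm
          rcases smul_eq_zero.mp h7 with h8 | h8
          · linarith
          · have := hp.unit v
            rw [h8, norm_zero] at this
            exact one_ne_zero this.symm
        · exact hpos.ne' h6
    obtain ⟨d0, hd0⟩ := hs
    have hmem0 : a ∈ arc (p d0.fst) (p d0.snd) := by
      refine ⟨F.ua, 1, 0, zero_le_one, le_refl _, ?_⟩
      rw [hd0, F.ps, one_smul, zero_smul, add_zero]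
    by_cases hedge : d0.edge = e.edge
    · apply hse
      rw [← hedge, ← hd0]
      exact Sym2.mem_mk_left _ _
    · obtain ⟨w, hw1, hw2, hw3⟩ := hp.embed d0 e hedge a hmem0 hmem
      have : w = s := hp.inj (by rw [← hw3, F.ps])
      rw [this] at hw2
      exact hse hw2

theorem ch_core (hp : M.InC p) (hq : ∀ v, ‖q v‖ = 1) (hle : M.Le q p) (F : M.Fan p a l s t)
    (hs : ∃ d : M.G.Dart, d.fst = s) (v : V) (hv : M.OnE l v) :
    ang (q s) (q v) ≤ ang a (p v) := by
  classical
  by_contra hcon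
  push Not at hcon
  obtain ⟨S, hS⟩ : ∃ S : Finset V, S = Finset.univ.filter
      (fun v => M.OnE l v ∧ ang a (p v) < ang (q s) (q v)) := ⟨_, rfl⟩
  have hSm : ∀ v, v ∈ S ↔ M.OnE l v ∧ ang a (p v) < ang (q s) (q v) := by
    intro v; rw [hS]; simp
  obtain ⟨w, hw, hmin⟩ := Finset.exists_min_image S (fun v => ang a (p v))
    ⟨v, (hSm v).mpr ⟨hv, hcon⟩⟩
  obtain ⟨hwE, hwl⟩ := (hSm w).mp hw
  by_cases h1 : w = s
  · rw [h1, ang_self (hq s)] at hwl
    have : 0 ≤ ang a (p s) := Real.arccos_nonneg _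
    linarith
  by_cases h2 : w = t
  · rw [h2, F.pt] at hwl
    have h3 : ang a (-a) = Real.pi := by
      unfold ang
      rw [inner_neg_right, inner_self_one F.ua, Real.arccos_neg_one]
    have h4 : ang (q s) (q t) ≤ Real.pi := Real.arccos_le_pi _
    linarith
  obtain ⟨e, he, hf, harc⟩ := up_step hp F hs hwE h1 h2
  obtain ⟨n1, n2⟩ := ne_a hp F h1 h2
  have hadd := ang_add (hp.unit w) F.ua n1 n2 harc
  have hne : p w ≠ p e.snd := by
    rw [← hf]; exact H27.qne hp e
  have hpos := ang_pos (hp.unit w) (hp.unit e.snd) hne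
  have hu : e.snd ∉ S := by
    intro hu
    have := hmin _ hu
    rw [ang_comm a (p w), ang_comm a (p e.snd)] at this
    linarith
  have hu' : ang (q s) (q e.snd) ≤ ang a (p e.snd) := by
    by_contra hcon'
    push Not at hcon'
    exact hu ((hSm _).mpr ⟨onE_snd he, hcon'⟩)
  have htri := ang_triangle (hq s) (hq e.snd) (hq w)
  have hl := hle e
  rw [hf] at hl
  rw [ang_comm (q e.snd) (q w)] at htri
  rw [ang_comm (p e.snd) a] at hadd
  rw [ang_comm a (p w)] at hwl
  linarith

/-- the heights are kept if q s and q t are opposite. -/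
theorem height_eq (hp : M.InC p) (hq : ∀ v, ‖q v‖ = 1) (hle : M.Le q p) (F : M.Fan p a l s t)
    (hs : ∃ d : M.G.Dart, d.fst = s) (ht : ∃ d : M.G.Dart, d.fst = t) (hst : q t = - q s)
    (v : V) (hv : M.OnE l v) : ⟪q s, q v⟫ = ⟪a, p v⟫ := by
  have key : ∀ {x y z w : E3}, ‖x‖ = 1 → ‖y‖ = 1 → ‖z‖ = 1 → ‖w‖ = 1 → ang x y ≤ ang z w →
      ⟪z, w⟫ ≤ ⟪x, y⟫ := by
    intro x y z w hx hy hz hw h
    unfold ang at h
    have h1 := Real.cos_le_cos_of_nonneg_of_le_pi (Real.arccos_nonneg _) (Real.arccos_le_pi _) h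
    have hxy := abs_real_inner_le_norm x y
    have hzw := abs_real_inner_le_norm z w
    rw [hx, hy, mul_one, abs_le] at hxy
    rw [hz, hw, mul_one, abs_le] at hzw
    rwa [Real.cos_arccos hxy.1 hxy.2, Real.cos_arccos hzw.1 hzw.2] at h1
  have h1 := key (hq s) (hq v) F.ua (hp.unit v) (ch_core hp hq hle F hs v hv)
  have h2 := key (hq t) (hq v) (by rw [norm_neg]; exact F.ua) (hp.unit v)
    (ch_core hp hq hle (fan_flip F) ht v hv)
  rw [hst, inner_neg_left, inner_neg_left] at h2
  linarith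

theorem dir_step {x ρ y : E3} {c h : ℝ} (hx : ‖x‖ = 1) (hρ : ‖ρ‖ = 1) (hxρ : ⟪x, ρ⟫ = 0)
    (hy : ‖y‖ = 1) (h1 : ⟪x, y⟫ = h) (h2 : c ^ 2 + h ^ 2 = 1) (hc : 0 < c) (h3 : c ≤ ⟪ρ, y⟫) :
    y = c • ρ + h • x := by
  have e : ⟪y - (c • ρ + h • x), y - (c • ρ + h • x)⟫ ≤ 0 := by
    have e1 : ⟪y - (c • ρ + h • x), y - (c • ρ + h • x)⟫ = ⟪y, y⟫ - 2 * (c * ⟪ρ, y⟫ + h * ⟪x, y⟫)
        + (c ^ 2 * ⟪ρ, ρ⟫ + 2 * c * h * ⟪x, ρ⟫ + h ^ 2 * ⟪x, x⟫) := by
      simp only [inner_sub_left, inner_sub_right, inner_add_left, inner_add_right,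
        real_inner_smul_left, real_inner_smul_right, real_inner_comm y ρ, real_inner_comm y x,
        real_inner_comm x ρ]
      ring
    rw [e1, inner_self_one hy, inner_self_one hρ, inner_self_one hx, h1, hxρ]
    nlinarith [mul_le_mul_of_nonneg_left h3 hc.le]
  have e2 : y - (c • ρ + h • x) = 0 := by
    rw [← inner_self_eq_zero (𝕜 := ℝ)]
    exact le_antisymm e real_inner_self_nonneg
  exact sub_eq_zero.mp e2

/-- unit norm in the frame -/
theorem sq_frame {a r y : E3} {c h : ℝ} (ha : ‖a‖ = 1) (hr : ‖r‖ = 1) (har : ⟪a, r⟫ = 0)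
    (hy : ‖y‖ = 1) (h1 : y = c • r + h • a) : c ^ 2 + h ^ 2 = 1 := by
  have e := inner_self_one hy
  rw [h1] at e
  simp only [inner_add_left, inner_add_right, real_inner_smul_left, real_inner_smul_right,
    inner_self_one ha, inner_self_one hr, har, real_inner_comm a r] at e
  linear_combination e

/-- the property of the image of a meridian -/
def MerP (M : PlaneGraph V) (p q : V → E3) (a : E3) (l : M.Face → L) (s : V) (r ρ : E3) : Prop :=
  ‖ρ‖ = 1 ∧ ⟪q s, ρ⟫ = 0 ∧
    (∀ v, M.OnE l v → ∀ c : ℝ, 0 ≤ c → p v = c • r + ⟪a, p v⟫ • a →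
      q v = c • ρ + ⟪a, p v⟫ • q s) ∧
    ∃ d : M.G.Dart, d.fst = s ∧ M.OnE l d.snd ∧ ∃ c : ℝ, 0 < c ∧
      p d.snd = c • r + ⟪a, p d.snd⟫ • a

theorem merP (hp : M.InC p) (hq : M.InC q) (hle : M.Le q p) (F : M.Fan p a l s t)
    (ht : ∃ d : M.G.Dart, d.fst = t) (hst : q t = - q s)
    {r : E3} (hr : ‖r‖ = 1) (har : ⟪a, r⟫ = 0) (d : M.G.Dart) (hd : d.fst = s) (hE : M.E0 l d)
    (hon : OnR a r (p d.snd)) : ∃ ρ, MerP M p q a l s r ρ := by
  have hs : ∃ d : M.G.Dart, d.fst = s := ⟨d, hd⟩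
  have hH := height_eq hp hq.unit hle F hs ht hst
  obtain ⟨c0, hc0, hpd⟩ := hon
  have hxs := hq.unit s
  -- the end of the first dart
  have hds : d.snd ≠ s := by
    intro h; exact d.adj.ne (by rw [hd, h])
  have hdt : d.snd ≠ t := by
    intro h
    have := hp.ne_neg d
    rw [hd, h, F.ps, F.pt, neg_neg] at this
    exact this rfl
  have hsq0 := sq_frame F.ua hr har (hp.unit d.snd) hpd
  have pos_of : ∀ v, v ≠ s → v ≠ t → ∀ c : ℝ, 0 ≤ c → p v = c • r + ⟪a, p v⟫ • a → 0 < c := by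
    intro v h1 h2 c hc hv
    rcases hc.eq_or_lt with h | h
    · exfalso
      have hsq := sq_frame F.ua hr har (hp.unit v) hv
      rw [← h] at hsq hv
      have h3 : (⟪a, p v⟫ - 1) * (⟪a, p v⟫ + 1) = 0 := by linear_combination hsq
      obtain ⟨n1, n2⟩ := ne_a hp F h1 h2
      rcases mul_eq_zero.mp h3 with h4 | h4
      · apply n1
        rw [hv, zero_smul, zero_add]
        have : ⟪a, p v⟫ = 1 := by linarith
        rw [this, one_smul]
      · apply n2
        rw [hv, zero_smul, zero_add]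
        have : ⟪a, p v⟫ = -1 := by linarith
        rw [this, neg_smul, one_smul]
    · exact h
  have hc0' := pos_of _ hds hdt c0 hc0 hpd
  obtain ⟨ρ, hρ⟩ : ∃ ρ : E3, ρ = c0⁻¹ • (q d.snd - ⟪a, p d.snd⟫ • q s) := ⟨_, rfl⟩
  have hqd : q d.snd = c0 • ρ + ⟪a, p d.snd⟫ • q s := by
    rw [hρ, smul_smul, mul_inv_cancel₀ hc0'.ne', one_smul, sub_add_cancel]
  have hHd := hH d.snd (onE_snd hE)
  have hxρ : ⟪q s, ρ⟫ = 0 := by
    rw [hρ, real_inner_smul_right, inner_sub_right, real_inner_smul_right, inner_self_one hxs, hHd]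
    ring
  have hρ1 : ‖ρ‖ = 1 := by
    rw [norm_one_iff]
    have e := inner_self_one (hq.unit d.snd)
    rw [hqd] at e
    simp only [inner_add_left, inner_add_right, real_inner_smul_left, real_inner_smul_right,
      inner_self_one hxs, hxρ, real_inner_comm (q s) ρ] at e
    have e2 : c0 ^ 2 * (⟪ρ, ρ⟫ - 1) = 0 := by linear_combination e - hsq0
    rcases mul_eq_zero.mp e2 with e3 | e3
    · exact absurd e3 (by positivity)
    · linarith
  refine ⟨ρ, hρ1, hxρ, ?_, d, hd, onE_snd hE, c0, hc0', hpd⟩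
  -- all vertices
  classical
  by_contra hcon
  push Not at hcon
  obtain ⟨v0, hv0E, cv0, hcv0, hpv0, hbad0⟩ := hcon
  obtain ⟨S, hS⟩ : ∃ S : Finset V, S = Finset.univ.filter
      (fun v => M.OnE l v ∧ ∃ c : ℝ, 0 ≤ c ∧ p v = c • r + ⟪a, p v⟫ • a ∧
        q v ≠ c • ρ + ⟪a, p v⟫ • q s) := ⟨_, rfl⟩
  have hSm : ∀ v, v ∈ S ↔ M.OnE l v ∧ ∃ c : ℝ, 0 ≤ c ∧ p v = c • r + ⟪a, p v⟫ • a ∧
        q v ≠ c • ρ + ⟪a, p v⟫ • q s := by
    intro v; rw [hS]; simp
  obtain ⟨w, hw, hmin⟩ := Finset.exists_min_image S (fun v => ang a (p v))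
    ⟨v0, (hSm v0).mpr ⟨hv0E, cv0, hcv0, hpv0, hbad0⟩⟩
  obtain ⟨hwE, c, hc, hpw, hbad⟩ := (hSm w).mp hw
  have hc_zero : ∀ v, ∀ c : ℝ, p v = c • r + ⟪a, p v⟫ • a → (v = s ∨ v = t) → c = 0 := by
    intro v c hv h
    have h3 : ⟪r, p v⟫ = c := by
      conv_lhs => rw [hv]
      rw [inner_add_right, real_inner_smul_right, real_inner_smul_right, inner_self_one hr,
        real_inner_comm a r, har]
      ring
    rw [← h3]
    rcases h with h | h
    · rw [h, F.ps, real_inner_comm, har]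
    · rw [h, F.pt, inner_neg_right, real_inner_comm, har, neg_zero]
  by_cases h1 : w = s
  · apply hbad
    rw [hc_zero w c hpw (Or.inl h1), h1, F.ps, inner_self_one F.ua, zero_smul, zero_add, one_smul]
  by_cases h2 : w = t
  · apply hbad
    rw [hc_zero w c hpw (Or.inr h2), h2, F.pt, inner_neg_right, inner_self_one F.ua, zero_smul,
      zero_add, neg_smul, one_smul, hst]
  have hcpos := pos_of w h1 h2 c hc hpw
  obtain ⟨e, he, hf, harc⟩ := up_step hp F hs hwE h1 h2
  obtain ⟨n1, n2⟩ := ne_a hp F h1 h2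
  have hsqw := sq_frame F.ua hr har (hp.unit w) hpw
  by_cases hus : e.snd = s
  · -- e.symm = d
    have hd2 : d = e.symm := by
      apply H27.same_dir hp (d := d) (e := e.symm) (n := crs a r) (c := c0) (c' := c)
      · rw [hd]; exact hus.symm
      · rw [hd, F.ps]
        conv_lhs => rw [hpd]
        ext i
        fin_cases i <;> simp [crs] <;> ring
      · show crs (p e.snd) (p e.fst) = c • crs a r
        rw [hus, hf, F.ps]
        conv_lhs => rw [hpw]
        ext i
        fin_cases i <;> simp [crs] <;> ring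
      · exact mul_pos hc0' hcpos
    have hwd : w = d.snd := by rw [hd2]; exact hf.symm
    have hcc : c = c0 := by
      have e1 : ⟪r, p w⟫ = c := by
        conv_lhs => rw [hpw]
        rw [inner_add_right, real_inner_smul_right, real_inner_smul_right, inner_self_one hr,
          real_inner_comm a r, har]
        ring
      have e2 : ⟪r, p d.snd⟫ = c0 := by
        conv_lhs => rw [hpd]
        rw [inner_add_right, real_inner_smul_right, real_inner_smul_right, inner_self_one hr,
          real_inner_comm a r, har]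
        ring
      rw [← e1, ← e2, hwd]
    apply hbad
    rw [hwd, hcc]
    exact hqd
  · obtain ⟨_, s1, t1, hs1, ht1, hu⟩ := harc
    have hau : ⟪a, p e.snd⟫ = s1 * ⟪a, p w⟫ + t1 := by
      rw [hu, inner_add_right, real_inner_smul_right, real_inner_smul_right, inner_self_one F.ua]
      ring
    have hpu : p e.snd = (s1 * c) • r + ⟪a, p e.snd⟫ • a := by
      rw [hau]
      conv_lhs => rw [hu, hpw]
      module
    have hut : e.snd ≠ t := by
      intro h
      have h5 := hc_zero e.snd _ hpu (Or.inr h)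
      have h6 : s1 = 0 := by
        rcases mul_eq_zero.mp h5 with h7 | h7
        · exact h7
        · exact absurd h7 hcpos.ne'
      have h7 := hau
      rw [h, F.pt, inner_neg_right, inner_self_one F.ua, h6] at h7
      linarith
    have hcu := pos_of _ hus hut _ (mul_nonneg hs1 hc) hpu
    have hadd := ang_add (hp.unit w) F.ua n1 n2 ⟨hp.unit _, s1, t1, hs1, ht1, hu⟩
    have hne : p w ≠ p e.snd := by
      rw [← hf]; exact H27.qne hp e
    have hpos := ang_pos (hp.unit w) (hp.unit e.snd) hne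
    have hnot : e.snd ∉ S := by
      intro hu
      have := hmin _ hu
      rw [ang_comm a (p w), ang_comm a (p e.snd)] at this
      linarith
    have hqu : q e.snd = (s1 * c) • ρ + ⟪a, p e.snd⟫ • q s := by
      by_contra hcon
      exact hnot ((hSm _).mpr ⟨onE_snd he, _, (mul_nonneg hs1 hc), hpu, hcon⟩)
    apply hbad
    apply dir_step hxs hρ1 hxρ (hq.unit w) (hH w hwE) hsqw hcpos
    have hl := hle e
    rw [hf] at hl
    unfold ang at hl
    have h8 := Real.cos_le_cos_of_nonneg_of_le_pi (Real.arccos_nonneg _) (Real.arccos_le_pi _) hl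
    have hxy := abs_real_inner_le_norm (q w) (q e.snd)
    have hzw := abs_real_inner_le_norm (p w) (p e.snd)
    rw [hq.unit, hq.unit, mul_one, abs_le] at hxy
    rw [hp.unit, hp.unit, mul_one, abs_le] at hzw
    rw [Real.cos_arccos hxy.1 hxy.2, Real.cos_arccos hzw.1 hzw.2] at h8
    have e1 : ⟪p w, p e.snd⟫ = s1 * c * c + ⟪a, p e.snd⟫ * ⟪a, p w⟫ := by
      conv_lhs => rw [hpu]
      rw [inner_add_right, real_inner_smul_right, real_inner_smul_right, real_inner_comm a (p w)]
      have : ⟪p w, r⟫ = c := by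
        rw [real_inner_comm]
        conv_lhs => rw [hpw]
        rw [inner_add_right, real_inner_smul_right, real_inner_smul_right, inner_self_one hr,
          real_inner_comm a r, har]
        ring
      rw [this]
    have e2 : ⟪q w, q e.snd⟫ = s1 * c * ⟪ρ, q w⟫ + ⟪a, p e.snd⟫ * ⟪a, p w⟫ := by
      conv_lhs => rw [hqu]
      rw [inner_add_right, real_inner_smul_right, real_inner_smul_right, real_inner_comm (q s) (q w),
        hH w hwE, real_inner_comm ρ (q w)]
    rw [e1, e2] at h8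
    have h9 : s1 * c * c ≤ s1 * c * ⟪ρ, q w⟫ := by linarith
    exact le_of_mul_le_mul_left h9 hcu

end

end H33

open H33 in
theorem st_CH : ST_CH := by
  intro V _ _ M L p q h a l s t hS hq hle F v hv
  have hp := hS.inc
  obtain ⟨d0, _⟩ := F.ex
  obtain ⟨ds, hds, _⟩ := exists_third hS.c3 s d0 d0
  obtain ⟨dt, hdt, _⟩ := exists_third hS.c3 t d0 d0
  refine ⟨ch_core hp hq hle F ⟨ds, hds⟩ v hv, ?_⟩
  rw [ang_comm (q v) (q t), ang_comm (p v) (-a)]
  exact ch_core hp hq hle (fan_flip F) ⟨dt, hdt⟩ v hv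

open H33 in
theorem st_QR : ST_QR := by
  intro V _ _ M L p q a l s t k th r lam hp hq hle F hL hst
  have hk2 := H93.FanL.two_le hL
  have hr0k : r k = r 0 := by
    rw [hL.rr k (le_refl _), hL.thk, Real.cos_two_pi, Real.sin_two_pi, one_smul, zero_smul,
      add_zero]
  have hru : ∀ i ≤ k, ‖r i‖ = 1 := by
    intro i hi
    rw [norm_one_iff, H93.FanL.inner_rr F.ua hL hi hi, sub_self, Real.cos_zero]
  have har : ∀ i ≤ k, ⟪a, r i⟫ = 0 := by
    intro i hi
    have h3 : ⟪a, crs a (r 0)⟫ = 0 := by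
      rw [real_inner_comm, crs_inner]; simp only [det3]; ring
    rw [hL.rr i hi, inner_add_right, real_inner_smul_right, real_inner_smul_right, hL.ar0, h3]
    ring
  have ht : ∃ d : M.G.Dart, d.fst = t := by
    obtain ⟨d, hd, _⟩ := hL.bot 0 (by omega)
    exact ⟨d.symm, hd⟩
  have hex : ∀ i, i < k → ∃ ρ, MerP M p q a l s (r (i + 1)) ρ := by
    intro i hi
    obtain ⟨d, hd, hon, hl1, hl2⟩ := hL.top i hi
    have hE : M.E0 l d := by
      unfold PlaneGraph.E0
      rw [hl1, hl2]
      exact H93.FanL.lam_ne hL hi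
    exact merP hp hq hle F ht hst (hru _ hi) (har _ hi) d hd hE hon
  have hex' : ∀ i, i ≤ k → ∃ ρ, MerP M p q a l s (r i) ρ := by
    intro i hi
    rcases Nat.eq_zero_or_pos i with h | h
    · have := hex (k - 1) (by omega)
      rw [Nat.sub_add_cancel (by omega), hr0k] at this
      rw [h]; exact this
    · have := hex (i - 1) (by omega)
      rwa [Nat.sub_add_cancel (by omega)] at this
  choose! R hR using hex'
  obtain ⟨rq, hrq⟩ : ∃ rq : ℕ → E3, rq = fun i => if i = k then R 0 else R i := ⟨_, rfl⟩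
  have hP : ∀ i ≤ k, MerP M p q a l s (r i) (rq i) := by
    intro i hi
    rw [hrq]
    by_cases h : i = k
    · simp only [h, if_true]
      rw [hr0k]
      exact hR 0 (Nat.zero_le _)
    · simp only [h, if_false]
      exact hR i hi
  refine ⟨rq, fun i hi => ⟨(hP i hi).1, (hP i hi).2.1⟩, ?_, ?_, fun i hi => (hP i hi).2.2.1⟩
  · rw [hrq]
    have : (0 : ℕ) ≠ k := by omega
    simp [this]
  · intro i hi heq
    obtain ⟨hρ1, hxρ, hf1, d, hd, hdE, c, hc, hpd⟩ := hP i hi.le
    obtain ⟨_, _, hf2, d', hd', hdE', c', hc', hpd'⟩ := hP (i + 1) hi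
    have g1 := hf1 d.snd hdE c hc.le hpd
    have g2 := hf2 d'.snd hdE' c' hc'.le hpd'
    rw [← heq] at g2
    have hdd : d = d' := by
      apply H27.same_dir hq (d := d) (e := d') (n := crs (q s) (rq i)) (c := c) (c' := c')
      · rw [hd, hd']
      · rw [hd]
        conv_lhs => rw [g1]
        ext j
        fin_cases j <;> simp [crs] <;> ring
      · rw [hd']
        conv_lhs => rw [g2]
        ext j
        fin_cases j <;> simp [crs] <;> ring
      · exact mul_pos hc hc'
    rw [← hdd] at hpd'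
    have s1 := sq_frame F.ua (hru i hi.le) (har i hi.le) (hp.unit d.snd) hpd
    have s2 := sq_frame F.ua (hru (i + 1) hi) (har (i + 1) hi) (hp.unit d.snd) hpd'
    have hcc : c = c' := by
      have : (c - c') * (c + c') = 0 := by linear_combination s1 - s2
      rcases mul_eq_zero.mp this with h | h
      · linarith
      · exact absurd h (by positivity)
    rw [← hcc] at hpd'
    have hrr : r i = r (i + 1) := by
      have h5 : c • r i = c • r (i + 1) := by
        have := hpd.symm.trans hpd'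
        exact add_right_cancel this
      exact smul_right_injective _ hc.ne' h5
    have h6 := H93.FanL.inner_rr F.ua hL hi.le (show i + 1 ≤ k from hi)
    rw [← hrr, inner_self_one (hru i hi.le)] at h6
    obtain ⟨n, hn⟩ := (Real.cos_eq_one_iff _).mp h6.symm
    have h7 := hL.thl i hi
    have h8 := hL.thp i hi
    have hpi := Real.pi_pos
    have n1 : (0 : ℝ) < n := by
      by_contra hno
      push Not at hno
      have : (n : ℝ) * (2 * Real.pi) ≤ 0 := mul_nonpos_of_nonpos_of_nonneg hno (by linarith)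
      linarith
    have n2 : (n : ℝ) < 1 := by
      by_contra hno
      push Not at hno
      have : 1 * (2 * Real.pi) ≤ (n : ℝ) * (2 * Real.pi) :=
        mul_le_mul_of_nonneg_right hno (by linarith)
      linarith
    have n3 : (0 : ℤ) < n := by exact_mod_cast n1
    have n4 : n < (1 : ℤ) := by exact_mod_cast n2
    omega

end Pool.Agent.Helper30.N9
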